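import Pool.Agent.Helper43.KT.Lie
import Pool.Agent.Helper9.KT.Casimir
import Pool.Agent.Helper48.KT.B5
import Pool.Agent.Helper8.KT.PL

/-!
K'', block B6: a subspace of the tensor product which is stable under the product of the special linear groups and not
contained in the span of the pairings contains a vector supported in the first indices of the true factors and the last
indices of the false factors.
-/

set_option autoImplicit false

open Matrix Pool.Agent.Helper73.KT

namespace Pool.Agent.Helper35.KT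

section general
variable {σ K : Type*} [Fintype σ] [Field K]

theorem poly_mem {R : Submodule K (σ → K)} (h : σ → K) (hR : ∀ M ∈ R, (fun s => h s * M s) ∈ R) {M : σ → K}
    (hM : M ∈ R) (p : Polynomial K) : (fun s => p.eval (h s) * M s) ∈ R := by
  induction p using Polynomial.induction_on' with
  | add p q hp hq =>
    have := R.add_mem hp hq
    convert this using 1
    funext s
    simp [add_mul]
  | monomial n a =>
    induction n with
    | zero =>
      have := R.smul_mem a hM
      convert this using 1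
      funext s
      simp
    | succ n ih =>
      have := hR _ ih
      convert this using 1
      funext s
      simp [pow_succ]
      ring

open Classical in
/-- the indicator projections -/
theorem ind_mem {R : Submodule K (σ → K)} (h : σ → K) (hR : ∀ M ∈ R, (fun s => h s * M s) ∈ R) (v : K) {M : σ → K}
    (hM : M ∈ R) : (fun s => if h s = v then M s else 0) ∈ R := by
  have h1 := poly_mem h hR hM (∏ u ∈ (Finset.univ.image h).erase v, (Polynomial.C (v - u)⁻¹ * (Polynomial.X - Polynomial.C u)))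
  convert h1 using 1
  funext s
  rw [Polynomial.eval_prod]
  split_ifs with hs
  · rw [Finset.prod_eq_one, one_mul]
    intro u hu
    have : v - u ≠ 0 := sub_ne_zero.2 (Finset.ne_of_mem_erase hu).symm
    simp only [Polynomial.eval_mul, Polynomial.eval_C, Polynomial.eval_sub, Polynomial.eval_X, hs]
    exact inv_mul_cancel₀ this
  · rw [Finset.prod_eq_zero (i := h s), zero_mul]
    · exact Finset.mem_erase.2 ⟨hs, Finset.mem_image_of_mem h (Finset.mem_univ s)⟩
    · simp

end general

variable {X K ι : Type} [DecidableEq X] [Field K] [Fintype ι] [DecidableEq ι] {N : ℕ}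

/-- the sign of a factor -/
def eps (b : Bool) : ℤ := if b then 1 else -1

/-- the weight of an index -/
def wt (i : ι → X × Bool) (x : X) (s : ι → Fin N) (c : Fin N) : ℤ :=
  ∑ a, if (i a).1 = x ∧ s a = c then eps (i a).2 else 0

/-- the height of an index -/
def ht (i : ι → X × Bool) (s : ι → Fin N) : ℤ := ∑ a, -(eps (i a).2 * ((s a : ℕ) : ℤ))

theorem sum_update {M : Type*} [AddCommGroup M] (g : ι → Fin N → M) (s : ι → Fin N) (a : ι) (e : Fin N) :
    ∑ b, g b (Function.update s a e b) = ∑ b, g b (s b) - g a (s a) + g a e := by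
  rw [← Finset.add_sum_erase _ _ (Finset.mem_univ a), ← Finset.add_sum_erase _ (fun b => g b (s b)) (Finset.mem_univ a),
    Function.update_self]
  have : ∑ b ∈ Finset.univ.erase a, g b (Function.update s a e b) = ∑ b ∈ Finset.univ.erase a, g b (s b) :=
    Finset.sum_congr rfl fun b hb => by rw [Function.update_of_ne (Finset.ne_of_mem_erase hb)]
  rw [this]
  abel

theorem wt_update (i : ι → X × Bool) (x : X) (s : ι → Fin N) (a : ι) (e c : Fin N) :
    wt i x (Function.update s a e) c = wt i x s c - (if (i a).1 = x ∧ s a = c then eps (i a).2 else 0) +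
      (if (i a).1 = x ∧ e = c then eps (i a).2 else 0) :=
  sum_update (fun b z => if (i b).1 = x ∧ z = c then eps (i b).2 else 0) s a e

theorem ht_update (i : ι → X × Bool) (s : ι → Fin N) (a : ι) (e : Fin N) :
    ht i (Function.update s a e) = ht i s + eps (i a).2 * ((s a : ℕ) : ℤ) - eps (i a).2 * ((e : ℕ) : ℤ) := by
  unfold ht
  rw [sum_update (fun b z => -(eps (i b).2 * ((z : ℕ) : ℤ))) s a e]
  ring

/-- the support of the image -/
theorem lie_supp {i : ι → X × Bool} {x : X} {c d : Fin N} {M : (ι → Fin N) → K} {s : ι → Fin N}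
    (h : lie i x c d M s ≠ 0) : ∃ a, (i a).1 = x ∧ (((i a).2 = true ∧ s a = c ∧ M (Function.update s a d) ≠ 0) ∨
      ((i a).2 = false ∧ s a = d ∧ M (Function.update s a c) ≠ 0)) := by
  by_contra hc
  push Not at hc
  apply h
  show (∑ a, if (i a).1 = x then
    (if (i a).2 then (if s a = c then M (Function.update s a d) else 0)
      else (if s a = d then -M (Function.update s a c) else 0)) else 0) = 0
  refine Finset.sum_eq_zero fun a _ => ?_
  split_ifs with h1 h2 h3 h3
  · exact (hc a h1).1 h2 h3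
  · rfl
  · rw [(hc a h1).2 (by simpa using h2) h3, neg_zero]
  · rfl
  · rfl

theorem lie_diag (i : ι → X × Bool) (x : X) (c : Fin N) (M : (ι → Fin N) → K) (s : ι → Fin N) :
    lie i x c c M s = (wt i x s c : K) * M s := by
  show (∑ a, if (i a).1 = x then
    (if (i a).2 then (if s a = c then M (Function.update s a c) else 0)
      else (if s a = c then -M (Function.update s a c) else 0)) else 0) = _
  rw [wt, Int.cast_sum, Finset.sum_mul]
  refine Finset.sum_congr rfl fun a _ => ?_
  by_cases h1 : (i a).1 = x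
  · by_cases h3 : s a = c
    · have h4 : Function.update s a c = s := by rw [← h3, Function.update_eq_self]
      rw [h4]
      rcases hb : (i a).2 with _ | _
      · simp [h1, h3, eps]
      · simp [h1, h3, eps]
    · simp [h3]
  · simp [h1]

/-- the weight of the image -/
theorem wt_lie {i : ι → X × Bool} {x y : X} {c d : Fin N} {M : (ι → Fin N) → K} {ω : Fin N → ℤ}
    (hM : ∀ s, M s ≠ 0 → ∀ e, wt i y s e = ω e) {s : ι → Fin N} (h : lie i x c d M s ≠ 0) (e : Fin N) :
    wt i y s e = ω e + (if x = y ∧ c = e then 1 else 0) - (if x = y ∧ d = e then 1 else 0) := by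
  obtain ⟨a, ha, ⟨h1, h2, h3⟩ | ⟨h1, h2, h3⟩⟩ := lie_supp h
  · have h4 := hM _ h3 e
    rw [wt_update, ha, h2, h1] at h4
    simp only [eps, if_true] at h4
    linarith
  · have h4 := hM _ h3 e
    rw [wt_update, ha, h2, h1] at h4
    simp only [eps] at h4
    have e1 : (if x = y ∧ d = e then (if (false = true) then (1 : ℤ) else -1) else 0) = -(if x = y ∧ d = e then 1 else 0) := by
      split_ifs <;> simp_all
    have e2 : (if x = y ∧ c = e then (if (false = true) then (1 : ℤ) else -1) else 0) = -(if x = y ∧ c = e then 1 else 0) := by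
      split_ifs <;> simp_all
    rw [e1, e2] at h4
    linarith

theorem ht_lie {i : ι → X × Bool} {x : X} {c d : Fin N} {M : (ι → Fin N) → K} {η : ℤ}
    (hM : ∀ s, M s ≠ 0 → ht i s = η) {s : ι → Fin N} (h : lie i x c d M s ≠ 0) :
    ht i s = η + ((d : ℕ) : ℤ) - ((c : ℕ) : ℤ) := by
  obtain ⟨a, ha, ⟨h1, h2, h3⟩ | ⟨h1, h2, h3⟩⟩ := lie_supp h
  · have h4 := hM _ h3
    rw [ht_update, h2, h1] at h4
    simp only [eps, if_true] at h4
    linarith
  · have h4 := hM _ h3
    rw [ht_update, h2, h1] at h4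
    simp only [eps] at h4
    simp at h4
    linarith

theorem wt_abs (i : ι → X × Bool) (x : X) (s : ι → Fin N) (c : Fin N) : -(Fintype.card ι : ℤ) ≤ wt i x s c := by
  have h1 : ∑ _a : ι, (-1 : ℤ) ≤ wt i x s c := by
    refine Finset.sum_le_sum fun a _ => ?_
    unfold eps
    split_ifs <;> norm_num
  simpa using h1

section weights
variable [CharZero K]

theorem wt_stab {i : ι → X × Bool} {R : Submodule K ((ι → Fin N) → K)} (hR : ∀ x c d, ∀ M ∈ R, lie i x c d M ∈ R)
    (x : X) (c : Fin N) (v : ℤ) {M : (ι → Fin N) → K} (hM : M ∈ R) :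
    (fun s => if wt i x s c = v then M s else 0) ∈ R := by
  classical
  have h1 := ind_mem (R := R) (fun s => (wt i x s c : K)) (fun M hM => by
    have := hR x c c M hM
    convert this using 1
    funext s
    rw [lie_diag]) (v : K) hM
  convert h1 using 1
  funext s
  by_cases h : wt i x s c = v
  · rw [if_pos h, if_pos (by rw [h])]
  · rw [if_neg h, if_neg (fun h' => h (by exact_mod_cast h'))]

theorem wt_stab_all {i : ι → X × Bool} {R : Submodule K ((ι → Fin N) → K)} (hR : ∀ x c d, ∀ M ∈ R, lie i x c d M ∈ R)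
    (ω : X → Fin N → ℤ) (J : Finset (X × Fin N)) {M : (ι → Fin N) → K} (hM : M ∈ R) :
    (fun s => if ∀ p ∈ J, wt i p.1 s p.2 = ω p.1 p.2 then M s else 0) ∈ R := by
  classical
  induction J using Finset.induction_on with
  | empty => simpa using hM
  | insert p J hp ih =>
    have h1 := wt_stab hR p.1 p.2 (ω p.1 p.2) ih
    convert h1 using 1
    funext s
    by_cases h2 : wt i p.1 s p.2 = ω p.1 p.2
    · rw [if_pos h2]
      refine if_congr ?_ rfl rfl
      constructor
      · exact fun h q hq => h q (Finset.mem_insert_of_mem hq)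
      · intro h q hq
        rcases Finset.mem_insert.1 hq with rfl | hq
        · exact h2
        · exact h q hq
    · rw [if_neg h2, if_neg (fun h => h2 (h p (Finset.mem_insert_self _ _)))]

variable [Fintype X]

open Classical in
theorem wt_stab_univ {i : ι → X × Bool} {R : Submodule K ((ι → Fin N) → K)} (hR : ∀ x c d, ∀ M ∈ R, lie i x c d M ∈ R)
    (ω : X → Fin N → ℤ) {M : (ι → Fin N) → K} (hM : M ∈ R) :
    (fun s => if (fun x c => wt i x s c) = ω then M s else 0) ∈ R := by
  have h1 := wt_stab_all hR ω Finset.univ hM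
  convert h1 using 1
  funext s
  by_cases h : (fun x c => wt i x s c) = ω
  · rw [if_pos h, if_pos]
    intro p _
    rw [← h]
  · rw [if_neg h, if_neg]
    intro h'
    exact h (funext fun x => funext fun c => h' (x, c) (Finset.mem_univ _))

/-- a vector with a weight -/
theorem exists_wt {i : ι → X × Bool} {R S : Submodule K ((ι → Fin N) → K)}
    (hR : ∀ x c d, ∀ M ∈ R, lie i x c d M ∈ R) (hRS : ¬ R ≤ S) :
    ∃ M ∈ R, M ∉ S ∧ ∃ ω : X → Fin N → ℤ, ∀ s, M s ≠ 0 → ∀ x c, wt i x s c = ω x c := by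
  classical
  obtain ⟨M, hM, hMS⟩ := Set.not_subset.1 hRS
  by_contra hc
  push Not at hc
  apply hMS
  let W : (ι → Fin N) → X → Fin N → ℤ := fun s x c => wt i x s c
  have h1 : M = ∑ ω ∈ Finset.univ.image W, fun s => if W s = ω then M s else 0 := by
    funext s
    rw [Finset.sum_apply, Finset.sum_eq_single (W s)]
    · rw [if_pos rfl]
    · intro ω _ hω
      rw [if_neg (fun h => hω h.symm)]
    · intro h
      exact absurd (Finset.mem_image_of_mem W (Finset.mem_univ s)) h
  rw [SetLike.mem_coe, h1]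
  refine S.sum_mem fun ω _ => ?_
  by_contra h2
  have h7 : (fun s => if W s = ω then M s else 0) ∈ R := by
    convert wt_stab_univ hR ω hM
  obtain ⟨s, h3, x, c, h4⟩ := hc _ h7 h2 ω
  apply h4
  by_contra h5
  apply h3
  rw [if_neg]
  intro h6
  exact h5 (congrFun (congrFun h6 x) c)

theorem ht_wt (i : ι → X × Bool) (s : ι → Fin N) : ht i s = ∑ x, ∑ c : Fin N, -(((c : ℕ) : ℤ) * wt i x s c) := by
  unfold ht wt
  simp only [Finset.mul_sum, Finset.sum_neg_distrib]
  congr 1
  have h1 : ∀ x : X, ∑ c : Fin N, ∑ a, ((c : ℕ) : ℤ) * (if (i a).1 = x ∧ s a = c then eps (i a).2 else 0) =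
      ∑ a, ∑ c : Fin N, ((c : ℕ) : ℤ) * (if (i a).1 = x ∧ s a = c then eps (i a).2 else 0) := fun x => Finset.sum_comm
  rw [Finset.sum_congr rfl fun x _ => h1 x, Finset.sum_comm]
  refine Finset.sum_congr rfl fun a _ => ?_
  rw [Finset.sum_eq_single (i a).1, Finset.sum_eq_single (s a)]
  · rw [if_pos ⟨rfl, rfl⟩, mul_comm]
  · intro c _ hc
    rw [if_neg (fun h => hc h.2.symm), mul_zero]
  · simp
  · intro x _ hx
    refine Finset.sum_eq_zero fun c _ => ?_
    rw [if_neg (fun h => hx h.1.symm), mul_zero]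
  · simp

/-- a vector of highest weight modulo `S` -/
theorem exists_high {i : ι → X × Bool} {R S : Submodule K ((ι → Fin N) → K)}
    (hR : ∀ x c d, ∀ M ∈ R, lie i x c d M ∈ R) (hRS : ¬ R ≤ S) :
    ∃ M ∈ R, M ∉ S ∧ (∃ ω : X → Fin N → ℤ, ∀ s, M s ≠ 0 → ∀ x c, wt i x s c = ω x c) ∧
      ∀ x c d, c < d → lie i x c d M ∈ S := by
  classical
  let E : Finset ℤ := (Finset.univ.image (ht (N := N) i)).filter fun η => ∃ M ∈ R, M ∉ S ∧
    (∃ ω : X → Fin N → ℤ, ∀ s, M s ≠ 0 → ∀ x c, wt i x s c = ω x c) ∧ ∀ s, M s ≠ 0 → ht i s = η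
  have hmem : ∀ (M : (ι → Fin N) → K) (ω : X → Fin N → ℤ), M ∈ R → M ∉ S → (∀ s, M s ≠ 0 → ∀ x c, wt i x s c = ω x c) →
      (∑ x, ∑ c : Fin N, -(((c : ℕ) : ℤ) * ω x c)) ∈ E := by
    intro M ω h1 h2 h3
    have h4 : ∀ s, M s ≠ 0 → ht i s = ∑ x, ∑ c : Fin N, -(((c : ℕ) : ℤ) * ω x c) := by
      intro s hs
      rw [ht_wt]
      exact Finset.sum_congr rfl fun x _ => Finset.sum_congr rfl fun c _ => by rw [h3 s hs x c]
    obtain ⟨s, hs⟩ : ∃ s, M s ≠ 0 := by
      by_contra h
      push Not at h
      exact h2 (by rw [show M = 0 from funext h]; exact S.zero_mem)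
    refine Finset.mem_filter.2 ⟨?_, M, h1, h2, ⟨ω, h3⟩, h4⟩
    rw [← h4 s hs]
    exact Finset.mem_image_of_mem _ (Finset.mem_univ s)
  obtain ⟨M0, h0, h0', ω0, hω0⟩ := exists_wt hR hRS
  have hE : E.Nonempty := ⟨_, hmem M0 ω0 h0 h0' hω0⟩
  obtain ⟨-, M, h1, h2, ⟨ω, h3⟩, h4⟩ := Finset.mem_filter.1 (E.max'_mem hE)
  refine ⟨M, h1, h2, ⟨ω, h3⟩, fun x c d hcd => ?_⟩
  by_contra h5
  have h6 := hmem (lie i x c d M) (fun y e => ω y e + (if x = y ∧ c = e then 1 else 0) - (if x = y ∧ d = e then 1 else 0))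
    (hR x c d M h1) h5 (fun s hs y e => wt_lie (fun s hs e => h3 s hs y e) hs e)
  obtain ⟨s, hs⟩ : ∃ s, lie i x c d M s ≠ 0 := by
    by_contra h
    push Not at h
    exact h5 (by rw [show lie i x c d M = 0 from funext h]; exact S.zero_mem)
  have h7 := ht_lie h4 hs
  have h8 : ht i s = ∑ y, ∑ e : Fin N, -(((e : ℕ) : ℤ) *
      (ω y e + (if x = y ∧ c = e then 1 else 0) - (if x = y ∧ d = e then 1 else 0))) := by
    rw [ht_wt]
    exact Finset.sum_congr rfl fun y _ => Finset.sum_congr rfl fun e _ => by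
      rw [wt_lie (fun s hs e => h3 s hs y e) hs e]
  rw [← h8, h7] at h6
  have h9 := E.le_max' _ h6
  have h10 : ((c : ℕ) : ℤ) < ((d : ℕ) : ℤ) := by exact_mod_cast hcd
  linarith

end weights


section string
variable [CharZero K]

/-- the weights at `c` and `d` of the strings -/
theorem string_wt {i : ι → X × Bool} {x : X} {c d : Fin N} (hcd : c ≠ d) {M : (ι → Fin N) → K} {ω : Fin N → ℤ}
    (hM : ∀ s, M s ≠ 0 → ∀ e, wt i x s e = ω e) (j : ℕ) :
    ∀ s, ((lie i x d c) ^ j) M s ≠ 0 → wt i x s c = ω c - j ∧ wt i x s d = ω d + j := by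
  have key : ∀ j : ℕ, ∀ s, ((lie i x d c) ^ j) M s ≠ 0 → ∀ e, wt i x s e = ω e + (if d = e then (j : ℤ) else 0) -
      (if c = e then (j : ℤ) else 0) := by
    intro j
    induction j with
    | zero =>
      intro s hs e
      rw [pow_zero] at hs
      rw [hM s hs e]
      simp
    | succ j ih =>
      intro s hs e
      rw [pow_succ', Module.End.mul_apply] at hs
      rw [wt_lie ih hs e]
      simp only [true_and]
      split_ifs <;> push_cast <;> ring
  intro s hs
  have h1 := key j s hs c
  have h2 := key j s hs d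
  rw [if_neg hcd.symm, if_pos rfl] at h1
  rw [if_pos rfl, if_neg hcd] at h2
  constructor <;> linarith

/-- dominance -/
theorem dominant {i : ι → X × Bool} {S : Submodule K ((ι → Fin N) → K)} (hS : ∀ x c d, ∀ M ∈ S, lie i x c d M ∈ S)
    (hcomm : ∀ (x : X) (c d : Fin N) (M : (ι → Fin N) → K),
      lie i x c d (lie i x d c M) - lie i x d c (lie i x c d M) = lie i x c c M - lie i x d d M)
    {M : (ι → Fin N) → K} (hMS : M ∉ S) {x : X} {ω : Fin N → ℤ} (hM : ∀ s, M s ≠ 0 → ∀ e, wt i x s e = ω e)
    {c d : Fin N} (hcd : c ≠ d) (he : lie i x c d M ∈ S) : ω d ≤ ω c := by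
  by_contra hlt
  push Not at hlt
  set F : ℕ → (ι → Fin N) → K := fun j => ((lie i x d c) ^ j) M with hF
  have hF0 : F 0 = M := by simp [hF]
  have hFs : ∀ j, F (j + 1) = lie i x d c (F j) := fun j => by
    simp only [hF]
    rw [pow_succ', Module.End.mul_apply]
  have hH : ∀ j, lie i x c c (F j) - lie i x d d (F j) = ((ω c - ω d - 2 * j : ℤ) : K) • F j := by
    intro j
    funext s
    rw [Pi.sub_apply, lie_diag, lie_diag, Pi.smul_apply, smul_eq_mul, ← sub_mul]
    by_cases h : F j s = 0
    · rw [h, mul_zero, mul_zero]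
    · obtain ⟨h1, h2⟩ := string_wt hcd hM j s h
      rw [h1, h2]
      congr 1
      push_cast
      ring
  have key : ∀ j : ℕ, lie i x c d (F (j + 1)) - (((j + 1) * (ω c - ω d - j) : ℤ) : K) • F j ∈ S := by
    intro j
    induction j with
    | zero =>
      have h1 := hcomm x c d (F 0)
      have h2 : lie i x c d (F 1) - (((0 + 1) * (ω c - ω d - 0) : ℤ) : K) • F 0 = lie i x d c (lie i x c d (F 0)) := by
        have h3 := hH 0
        rw [h3, sub_eq_iff_eq_add] at h1
        rw [show (1 : ℕ) = 0 + 1 from rfl, hFs 0, h1]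
        push_cast
        simp
      have h4 := hS x d c _ he
      rw [← hF0] at h4
      rw [← h2] at h4
      simpa using h4
    | succ j ih =>
      have h1 := hcomm x c d (F (j + 1))
      rw [hH (j + 1), sub_eq_iff_eq_add] at h1
      have h4 := hS x d c _ ih
      rw [map_sub, map_smul, ← hFs j] at h4
      have h5 : lie i x c d (F (j + 1 + 1)) - ((((j + 1 : ℕ) + 1) * (ω c - ω d - (j + 1 : ℕ)) : ℤ) : K) • F (j + 1) =
          lie i x d c (lie i x c d (F (j + 1))) - (((j + 1) * (ω c - ω d - j) : ℤ) : K) • F (j + 1) := by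
        rw [hFs (j + 1), h1]
        funext s
        simp only [Pi.add_apply, Pi.sub_apply, Pi.smul_apply, smul_eq_mul]
        push_cast
        ring
      rw [h5]
      exact h4
  have hnot : ∀ j, F j ∉ S := by
    intro j
    induction j with
    | zero => rwa [hF0]
    | succ j ih =>
      intro h
      apply ih
      have h1 := hS x c d _ h
      have h2 := S.sub_mem h1 (key j)
      rw [sub_sub_cancel] at h2
      have h3 : (((j + 1) * (ω c - ω d - j) : ℤ) : K) ≠ 0 := by
        rw [Int.cast_ne_zero]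
        refine mul_ne_zero (by positivity) ?_
        have : (0 : ℤ) ≤ j := Nat.cast_nonneg j
        omega
      exact (S.smul_mem_iff h3).1 h2
  set J : ℕ := (ω c + Fintype.card ι + 1).toNat with hJ
  apply hnot J
  have : F J = 0 := by
    funext s
    by_contra h
    obtain ⟨h1, -⟩ := string_wt hcd hM J s h
    have h2 := wt_abs i x s c
    have h3 : ω c + Fintype.card ι + 1 ≤ J := Int.self_le_toNat _
    omega
  rw [this]
  exact S.zero_mem

end string


section casimir
variable [CharZero K]

/-- the eigenvalue of the Casimir operator on a vector of weight `ω` -/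
def kap (ω : Fin N → ℤ) (α : ℕ) : ℤ :=
  ∑ c, ω c ^ 2 + ∑ c, ∑ d, (if c < d then ω c - ω d else 0) - N * α

/-- the number of the factors with the label `x` or its inverse -/
def cnt (i : ι → X × Bool) (x : X) : ℕ := (Finset.univ.filter fun a => (i a).1 = x).card

theorem casimir_mod {i : ι → X × Bool} {S : Submodule K ((ι → Fin N) → K)}
    (hS : ∀ x c d, ∀ M ∈ S, lie i x c d M ∈ S)
    (hcomm : ∀ (x : X) (c d : Fin N) (M : (ι → Fin N) → K),
      lie i x c d (lie i x d c M) - lie i x d c (lie i x c d M) = lie i x c c M - lie i x d d M)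
    {M : (ι → Fin N) → K} {x : X} {ω : Fin N → ℤ} (hM : ∀ s, M s ≠ 0 → ∀ e, wt i x s e = ω e)
    (he : ∀ c d, c < d → lie i x c d M ∈ S) :
    (∑ c, ∑ d, lie i x c d (lie i x d c M)) -
      ((∑ c, ω c ^ 2 + ∑ c, ∑ d, (if c < d then ω c - ω d else 0) : ℤ) : K) • M ∈ S := by
  have hH : ∀ c, lie i x c c M = (ω c : K) • M := by
    intro c
    funext s
    rw [lie_diag, Pi.smul_apply, smul_eq_mul]
    by_cases h : M s = 0
    · rw [h, mul_zero, mul_zero]
    · rw [hM s h c]
  have h1 : ∀ c d, lie i x c d (lie i x d c M) -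
      (((if c = d then ω c ^ 2 else 0) + (if c < d then ω c - ω d else 0) : ℤ) : K) • M ∈ S := by
    intro c d
    rcases lt_trichotomy c d with h | h | h
    · rw [if_neg h.ne, if_pos h, zero_add]
      have h2 := hcomm x c d M
      rw [hH c, hH d, ← sub_smul, sub_eq_iff_eq_add] at h2
      rw [h2]
      push_cast
      rw [add_sub_cancel_left]
      exact hS x d c _ (he c d h)
    · subst h
      rw [if_pos rfl, if_neg (lt_irrefl c), add_zero, hH c, map_smul, hH c, smul_smul]
      push_cast
      rw [pow_two, sub_self]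
      exact S.zero_mem
    · rw [if_neg h.ne', if_neg (not_lt.2 h.le), add_zero, Int.cast_zero, zero_smul, sub_zero]
      exact hS x c d _ (he d c h)
  have h2 : (∑ c, ∑ d, lie i x c d (lie i x d c M)) -
      ((∑ c, ω c ^ 2 + ∑ c, ∑ d, (if c < d then ω c - ω d else 0) : ℤ) : K) • M =
      ∑ c, ∑ d, (lie i x c d (lie i x d c M) -
        (((if c = d then ω c ^ 2 else 0) + (if c < d then ω c - ω d else 0) : ℤ) : K) • M) := by
    simp only [Finset.sum_sub_distrib, ← Finset.sum_smul, ← Int.cast_sum, Finset.sum_add_distrib]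
    simp
  rw [h2]
  exact S.sum_mem fun c _ => S.sum_mem fun d _ => h1 c d

/-- the sum of the transpositions -/
theorem trans_mod {i : ι → X × Bool} {S : Submodule K ((ι → Fin N) → K)}
    (hS : ∀ x c d, ∀ M ∈ S, lie i x c d M ∈ S)
    (hcon : ∀ a b, a ≠ b → i b = ((i a).1, !(i a).2) → ∀ M : (ι → Fin N) → K, con a b M ∈ S)
    (hcomm : ∀ (x : X) (c d : Fin N) (M : (ι → Fin N) → K),
      lie i x c d (lie i x d c M) - lie i x d c (lie i x c d M) = lie i x c c M - lie i x d d M)
    (hcas : ∀ (x : X) (M : (ι → Fin N) → K), ∑ c, ∑ d, lie i x c d (lie i x d c M) = ∑ a, if (i a).1 = x then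
      ((Fintype.card (Fin N) : K) • M + ∑ b, if b ≠ a ∧ (i b).1 = x then
        (if (i b).2 = (i a).2 then sw a b M else -con a b M) else 0) else 0)
    {M : (ι → Fin N) → K} {x : X} {ω : Fin N → ℤ} (hM : ∀ s, M s ≠ 0 → ∀ e, wt i x s e = ω e)
    (he : ∀ c d, c < d → lie i x c d M ∈ S) :
    (∑ a, ∑ b, if (i a).1 = x ∧ b ≠ a ∧ i b = i a then sw a b M else 0) - ((kap ω (cnt i x) : ℤ) : K) • M ∈ S := by
  have h1 := casimir_mod hS hcomm hM he
  rw [hcas x M] at h1
  have h2 : (∑ a, ∑ b, if (i a).1 = x ∧ b ≠ a ∧ i b = i a then sw a b M else 0) - ((kap ω (cnt i x) : ℤ) : K) • M =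
      ((∑ a, if (i a).1 = x then
      ((Fintype.card (Fin N) : K) • M + ∑ b, if b ≠ a ∧ (i b).1 = x then
        (if (i b).2 = (i a).2 then sw a b M else -con a b M) else 0) else 0) -
      ((∑ c, ω c ^ 2 + ∑ c, ∑ d, (if c < d then ω c - ω d else 0) : ℤ) : K) • M) +
      ∑ a, ∑ b, if (i a).1 = x ∧ b ≠ a ∧ (i b).1 = x ∧ (i b).2 ≠ (i a).2 then con a b M else 0 := by
    have h3 : (∑ a, if (i a).1 = x then
      ((Fintype.card (Fin N) : K) • M + ∑ b, if b ≠ a ∧ (i b).1 = x then
        (if (i b).2 = (i a).2 then sw a b M else -con a b M) else 0) else 0) = ((N * cnt i x : ℕ) : K) • M +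
        ((∑ a, ∑ b, if (i a).1 = x ∧ b ≠ a ∧ i b = i a then sw a b M else 0) -
        ∑ a, ∑ b, if (i a).1 = x ∧ b ≠ a ∧ (i b).1 = x ∧ (i b).2 ≠ (i a).2 then con a b M else 0) := by
      have h4 : ((N * cnt i x : ℕ) : K) • M = ∑ a, if (i a).1 = x then (N : K) • M else 0 := by
        rw [← Finset.sum_filter, Finset.sum_const, cnt, ← Nat.cast_smul_eq_nsmul K, smul_smul]
        push_cast
        rw [mul_comm]
      rw [h4, ← Finset.sum_sub_distrib, ← Finset.sum_add_distrib]
      refine Finset.sum_congr rfl fun a _ => ?_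
      by_cases ha : (i a).1 = x
      · rw [if_pos ha, if_pos ha, Fintype.card_fin]
        congr 1
        rw [← Finset.sum_sub_distrib]
        refine Finset.sum_congr rfl fun b _ => ?_
        by_cases hb : b ≠ a ∧ (i b).1 = x
        · by_cases hs : (i b).2 = (i a).2
          · have h5 : i b = i a := Prod.ext (hb.2.trans ha.symm) hs
            rw [if_pos hb, if_pos hs, if_pos ⟨ha, hb.1, h5⟩, if_neg (fun h => h.2.2.2 hs), sub_zero]
          · rw [if_pos hb, if_neg hs, if_neg (fun h => hs (by rw [h.2.2])), if_pos ⟨ha, hb.1, hb.2, hs⟩, zero_sub]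
        · rw [if_neg hb, if_neg (fun h => hb ⟨h.2.1, by rw [h.2.2]; exact ha⟩), if_neg (fun h => hb ⟨h.2.1, h.2.2.1⟩),
            sub_zero]
      · rw [if_neg ha, if_neg ha]
        simp [ha]
    rw [h3, kap]
    push_cast
    module
  rw [h2]
  refine S.add_mem h1 (S.sum_mem fun a _ => S.sum_mem fun b _ => ?_)
  split_ifs with h
  · refine hcon a b h.2.1.symm (Prod.ext (h.2.2.1.trans h.1.symm) ?_) M
    have := h.2.2.2
    rcases h1 : (i a).2 with _ | _ <;> rcases h2 : (i b).2 with _ | _ <;> simp_all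
  · exact S.zero_mem

end casimir


section count

/-- the number of the factors with the label `l` and the index `c` -/
def num (i : ι → X × Bool) (l : X × Bool) (s : ι → Fin N) (c : Fin N) : ℕ :=
  (Finset.univ.filter fun a => i a = l ∧ s a = c).card

theorem num_sum (i : ι → X × Bool) (l : X × Bool) (s : ι → Fin N) :
    ∑ c, num i l s c = (Finset.univ.filter fun a => i a = l).card := by
  rw [Finset.card_eq_sum_card_fiberwise (f := s) (t := Finset.univ) (fun _ _ => Finset.mem_coe.2 (Finset.mem_univ _))]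
  refine Finset.sum_congr rfl fun c _ => ?_
  rw [num, Finset.filter_filter]

theorem wt_num (i : ι → X × Bool) (x : X) (s : ι → Fin N) (c : Fin N) :
    wt i x s c = num i (x, true) s c - num i (x, false) s c := by
  rw [wt, num, num, Finset.card_filter, Finset.card_filter]
  push_cast
  rw [← Finset.sum_sub_distrib]
  refine Finset.sum_congr rfl fun a _ => ?_
  by_cases h1 : (i a).1 = x
  · by_cases h2 : s a = c
    · rcases h3 : (i a).2 with _ | _
      · have h4 : i a = (x, false) := Prod.ext h1 h3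
        simp [h4, h2, eps]
      · have h4 : i a = (x, true) := Prod.ext h1 h3
        simp [h4, h2, eps]
    · simp [h2]
  · have h4 : ∀ b, i a ≠ (x, b) := fun b h => h1 (by rw [h])
    simp [h1, h4]

theorem cnt_eq (i : ι → X × Bool) (x : X) :
    cnt i x = (Finset.univ.filter fun a => i a = (x, true)).card + (Finset.univ.filter fun a => i a = (x, false)).card := by
  rw [cnt, ← Finset.card_union_of_disjoint]
  · congr 1
    ext a
    rw [Finset.mem_union, Finset.mem_filter, Finset.mem_filter, Finset.mem_filter]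
    constructor
    · rintro ⟨-, h⟩
      rcases h3 : (i a).2 with _ | _
      · exact Or.inr ⟨Finset.mem_univ _, Prod.ext h h3⟩
      · exact Or.inl ⟨Finset.mem_univ _, Prod.ext h h3⟩
    · rintro (⟨-, h⟩ | ⟨-, h⟩)
      · exact ⟨Finset.mem_univ _, by rw [h]⟩
      · exact ⟨Finset.mem_univ _, by rw [h]⟩
  · rw [Finset.disjoint_filter]
    intro a _ h h'
    rw [h] at h'
    simp at h'

theorem pairs_card (i : ι → X × Bool) (x : X) :
    ((Finset.univ.filter fun p : ι × ι => (i p.1).1 = x ∧ p.2 ≠ p.1 ∧ i p.2 = i p.1).card : ℤ) =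
      ((Finset.univ.filter fun a => i a = (x, true)).card : ℤ) * (((Finset.univ.filter fun a => i a = (x, true)).card : ℤ) - 1) +
        ((Finset.univ.filter fun a => i a = (x, false)).card : ℤ) *
          (((Finset.univ.filter fun a => i a = (x, false)).card : ℤ) - 1) := by
  have h1 : (Finset.univ.filter fun p : ι × ι => (i p.1).1 = x ∧ p.2 ≠ p.1 ∧ i p.2 = i p.1) =
      (Finset.univ.filter fun a => i a = (x, true)).offDiag ∪ (Finset.univ.filter fun a => i a = (x, false)).offDiag := by
    ext ⟨a, b⟩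
    simp only [Finset.mem_union, Finset.mem_filter, Finset.mem_offDiag, Finset.mem_univ, true_and]
    constructor
    · rintro ⟨h, h1, h2⟩
      rcases h3 : (i a).2 with _ | _
      · have h4 : i a = (x, false) := Prod.ext h h3
        exact Or.inr ⟨h4, h2.trans h4, fun h => h1 h.symm⟩
      · have h4 : i a = (x, true) := Prod.ext h h3
        exact Or.inl ⟨h4, h2.trans h4, fun h => h1 h.symm⟩
    · rintro (⟨h, h1, h2⟩ | ⟨h, h1, h2⟩)
      · exact ⟨by rw [h], fun h => h2 h.symm, h1.trans h.symm⟩
      · exact ⟨by rw [h], fun h => h2 h.symm, h1.trans h.symm⟩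
  have h2 : ∀ A : Finset ι, ((A.offDiag.card : ℕ) : ℤ) = (A.card : ℤ) * ((A.card : ℤ) - 1) := by
    intro A
    rw [Finset.offDiag_card, Nat.cast_sub (Nat.le_mul_self _)]
    push_cast
    ring
  rw [h1, Finset.card_union_of_disjoint, Nat.cast_add, h2, h2]
  rw [Finset.disjoint_left]
  rintro ⟨a, b⟩ h h'
  rw [Finset.mem_offDiag, Finset.mem_filter] at h h'
  have h3 := h.1.2.symm.trans h'.1.2
  simp at h3

omit [DecidableEq X] in
/-- the pairing of two factors -/
theorem con_mem35 (i : ι → X × Bool) {a b : ι} (hab : a ≠ b) (h : i b = ((i a).1, !(i a).2)) (M : (ι → Fin N) → K) :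
    con a b M ∈ pairs K (Fin N) i 1 := by
  refine Submodule.subset_span ⟨fun _ => a, fun _ => b, ?_, fun _ => h,
    fun s => ∑ d, M (Function.update (Function.update s a d) b d), ?_, ?_⟩
  · rintro (j | j) (j' | j') hj
    · rw [Subsingleton.elim j j']
    · exact absurd hj hab
    · exact absurd hj.symm hab
    · rw [Subsingleton.elim j j']
  · intro s t hst
    refine Finset.sum_congr rfl fun d _ => ?_
    congr 1
    funext c
    by_cases hb : c = b
    · rw [hb, Function.update_self, Function.update_self]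
    · rw [Function.update_of_ne hb, Function.update_of_ne hb]
      by_cases ha : c = a
      · rw [ha, Function.update_self, Function.update_self]
      · rw [Function.update_of_ne ha, Function.update_of_ne ha]
        exact hst c fun _ => ⟨ha, hb⟩
  · intro s
    show (if s a = s b then _ else 0) = _
    refine if_congr ?_ rfl rfl
    exact ⟨fun h _ => h, fun h => h 0⟩

/-- the sorted support -/
theorem init_lt {f g : Fin N → ℕ} {ω : Fin N → ℤ} (hω : ∀ c, ω c = f c - g c) (hdom : ∀ c d, c < d → ω d ≤ ω c)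
    (hfg : ∀ c, f c = 0 ∨ g c = 0) {c0 : Fin N} (h : 0 < f c0) : c0.val < ∑ c, f c := by
  have h1 : 0 < ω c0 := by
    have h2 := hfg c0
    rw [hω]
    omega
  have h3 : ∀ c, c ≤ c0 → 1 ≤ f c := by
    intro c hc
    have h4 : ω c0 ≤ ω c := by
      rcases hc.lt_or_eq with h | h
      · exact hdom c c0 h
      · rw [h]
    have h5 := hω c
    omega
  calc c0.val < (Finset.Iic c0).card := by
        rw [Fin.card_Iic]
        exact Nat.lt_succ_self _
    _ = ∑ c ∈ Finset.Iic c0, 1 := by simp
    _ ≤ ∑ c ∈ Finset.Iic c0, f c := Finset.sum_le_sum fun c hc => h3 c (Finset.mem_Iic.1 hc)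
    _ ≤ ∑ c, f c := Finset.sum_le_sum_of_subset (Finset.subset_univ _)

theorem final_le {f g : Fin N → ℕ} {ω : Fin N → ℤ} (hω : ∀ c, ω c = f c - g c) (hdom : ∀ c d, c < d → ω d ≤ ω c)
    (hfg : ∀ c, f c = 0 ∨ g c = 0) {c0 : Fin N} (h : 0 < g c0) : N - ∑ c, g c ≤ c0.val := by
  have h1 : ω c0 < 0 := by
    have h2 := hfg c0
    rw [hω]
    omega
  have h3 : ∀ c, c0 ≤ c → 1 ≤ g c := by
    intro c hc
    have h4 : ω c ≤ ω c0 := by
      rcases hc.lt_or_eq with h | h
      · exact hdom c0 c h
      · rw [h]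
    have h5 := hω c
    omega
  have h4 : N - c0.val ≤ ∑ c, g c := by
    calc N - c0.val = (Finset.Ici c0).card := by rw [Fin.card_Ici]
      _ = ∑ c ∈ Finset.Ici c0, 1 := by simp
      _ ≤ ∑ c ∈ Finset.Ici c0, g c := Finset.sum_le_sum fun c hc => h3 c (Finset.mem_Ici.1 hc)
      _ ≤ ∑ c, g c := Finset.sum_le_sum_of_subset (Finset.subset_univ _)
  omega

end count

end Pool.Agent.Helper35.KT

namespace Pool.Agent.Helper73.KT

open Pool.Agent.Helper35.KT

variable {X K ι : Type} [Fintype X] [DecidableEq X] [Field K] [CharZero K] [Fintype ι] [DecidableEq ι]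

/-- B6 -/
theorem core {N : ℕ} (hN : Fintype.card ι ^ 2 < N) (i : ι → X × Bool) {R : Submodule K ((ι → Fin N) → K)}
    (hR : Stab i R) (hS : ¬ R ≤ pairs K (Fin N) i 1) :
    ∃ M ∈ R, M ≠ 0 ∧ ∀ s, M s ≠ 0 → ∀ a, ((i a).2 = true → (s a).val < mult i a) ∧
      ((i a).2 = false → N - mult i a ≤ (s a).val) := by
  haveI : Nonempty (Fin N) := ⟨⟨0, by omega⟩⟩
  have hRl : ∀ x c d, ∀ M ∈ R, lie i x c d M ∈ R := fun x c d => lie_stab_all hR x c d
  have hSl : ∀ x c d, ∀ M ∈ pairs K (Fin N) i 1, lie i x c d M ∈ pairs K (Fin N) i 1 := fun x c d => Pool.Agent.Helper8.KT.pairs_lie i 1 x c d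
  obtain ⟨M, hM, hMS, ⟨ω, hω⟩, hhigh⟩ := exists_high hRl hS
  refine ⟨M, hM, fun h => hMS (by rw [h]; exact Submodule.zero_mem _), fun s hs a => ?_⟩
  set x := (i a).1 with hx
  have hdom : ∀ c d, c < d → ω x d ≤ ω x c := fun c d hcd =>
    dominant hSl (lie_comm i) hMS (fun s hs e => hω s hs x e) hcd.ne (hhigh x c d hcd)
  have hT := trans_mod hSl (fun a b hab h M => con_mem35 i hab h M) (lie_comm i) (Pool.Agent.Helper9.KT.casimir i)
    (fun s hs e => hω s hs x e) (fun c d hcd => hhigh x c d hcd)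
  have hle := kappa_le i x (S := pairs K (Fin N) i 1) (fun a b h => Pool.Agent.Helper8.KT.pairs_sw i 1 a b h) hMS hT
  rw [pairs_card] at hle
  have h1 : ∀ c, ω x c = (num i (x, true) s c : ℤ) - num i (x, false) s c := fun c => by
    rw [← wt_num, hω s hs x c]
  have hp : ∑ c, (num i (x, true) s c : ℤ) = ((Finset.univ.filter fun a => i a = (x, true)).card : ℤ) := by
    rw [← num_sum i (x, true) s]
    push_cast
    rfl
  have hq : ∑ c, (num i (x, false) s c : ℤ) = ((Finset.univ.filter fun a => i a = (x, false)).card : ℤ) := by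
    rw [← num_sum i (x, false) s]
    push_cast
    rfl
  have hno := no_match (N := N) (num i (x, true) s) (num i (x, false) s) (k := Fintype.card ι) hN (by
    rw [num_sum, num_sum, ← cnt_eq]
    exact Finset.card_le_univ _) (κ := kap (ω x) (cnt i x)) (by
    rw [hp, hq, kap, cnt_eq]
    simp only [h1]
    push_cast
    ring) (by rw [hp, hq]; exact hle)
  constructor
  · intro ha
    have h2 : i a = (x, true) := Prod.ext hx.symm ha
    have h3 : 0 < num i (x, true) s (s a) := Finset.card_pos.2 ⟨a, Finset.mem_filter.2 ⟨Finset.mem_univ _, h2, rfl⟩⟩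
    have h4 := init_lt h1 hdom hno h3
    rw [num_sum] at h4
    rw [mult, h2]
    exact h4
  · intro ha
    have h2 : i a = (x, false) := Prod.ext hx.symm ha
    have h3 : 0 < num i (x, false) s (s a) := Finset.card_pos.2 ⟨a, Finset.mem_filter.2 ⟨Finset.mem_univ _, h2, rfl⟩⟩
    have h4 := final_le h1 hdom hno h3
    rw [num_sum] at h4
    rw [mult, h2]
    exact h4

end Pool.Agent.Helper73.KT
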